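import Pool.Agent.Q98.TP.Defs

set_option autoImplicit false

namespace Pool.Agent.Q98.TP.TaskCountProof

open MvPolynomial Finset

lemma pos_mul {f g : MvPolynomial (Fin 3) ℕ} {a b : Fin 3 →₀ ℕ} (h1 : 0 < coeff a f)
    (h2 : 0 < coeff b g) : 0 < coeff (a + b) (f * g) := by
  classical
  rw [coeff_mul]
  refine lt_of_lt_of_le (Nat.mul_pos h1 h2) ?_
  exact Finset.single_le_sum
    (f := fun x : (Fin 3 →₀ ℕ) × (Fin 3 →₀ ℕ) => coeff x.1 f * coeff x.2 g)
    (fun _ _ => Nat.zero_le _)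
    (Finset.HasAntidiagonal.mem_antidiagonal.2 rfl : (a, b) ∈ antidiagonal (a + b))

lemma pos_pow {f : MvPolynomial (Fin 3) ℕ} {a : Fin 3 →₀ ℕ} (h : 0 < coeff a f) (n : ℕ) :
    0 < coeff (n • a) (f ^ n) := by
  induction n with
  | zero => simp
  | succ n ih =>
    rw [succ_nsmul, pow_succ]
    exact pos_mul ih h

lemma pos_X (i : Fin 3) : 0 < coeff (Finsupp.single i 1) (X i : MvPolynomial (Fin 3) ℕ) := by
  simp [coeff_X]

theorem main : Pool.Agent.Q98.TP.TaskCount := by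
  classical
  intro q r hq m g
  obtain ⟨e1, he1⟩ : ∃ e : Fin 3 →₀ ℕ,
    e = Finsupp.single 0 1 + Finsupp.single 1 1 + Finsupp.single 2 1 := ⟨_, rfl⟩
  obtain ⟨e2, he2⟩ : ∃ e : Fin 3 →₀ ℕ, e = 2 • Finsupp.single 1 1 := ⟨_, rfl⟩
  obtain ⟨e3, he3⟩ : ∃ e : Fin 3 →₀ ℕ, e = 2 • Finsupp.single 2 1 := ⟨_, rfl⟩
  have hR1 : 0 < coeff e1 R := by
    unfold R
    rw [coeff_add, coeff_add, he1]
    exact Nat.add_pos_left (Nat.add_pos_left (pos_mul (pos_mul (pos_X 0) (pos_X 1)) (pos_X 2)) _) _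
  have hR2 : 0 < coeff e2 R := by
    unfold R
    rw [coeff_add, coeff_add, he2]
    exact Nat.add_pos_left (Nat.add_pos_right _ (pos_pow (pos_X 1) 2)) _
  have hR3 : 0 < coeff e3 R := by
    unfold R
    rw [coeff_add, he3]
    exact Nat.add_pos_right _ (pos_pow (pos_X 2) 2)
  obtain ⟨D, hD⟩ : ∃ D : ℕ × ℕ × ℕ → (Fin 3 →₀ ℕ),
    ∀ t, D t = m + (t.1 • e1 + t.2.1 • e2 + t.2.2 • e3) := ⟨_, fun _ => rfl⟩
  have hinj : Function.Injective D := by
    rintro ⟨i, j, k⟩ ⟨i', j', k'⟩ h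
    rw [hD, hD] at h
    have h := add_left_cancel h
    have h0 := DFunLike.congr_fun h 0
    have h1 := DFunLike.congr_fun h 1
    have h2 := DFunLike.congr_fun h 2
    simp [he1, he2, he3] at h0 h1 h2
    simp only [Prod.mk.injEq]
    omega
  have hmem : ∀ t ∈ range (r / 3 + 1) ×ˢ (range (r / 3 + 1) ×ˢ range (r / 3 + 1)),
      D t ∈ (monomial m 1 * Polynomial.aeval R q + g).support := by
    rintro ⟨i, j, k⟩ ht
    rw [Finset.mem_product, Finset.mem_product, Finset.mem_range, Finset.mem_range,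
      Finset.mem_range] at ht
    simp only at ht
    rw [mem_support_iff, hD, coeff_add, coeff_monomial_mul, one_mul]
    apply Nat.ne_of_gt
    apply Nat.add_pos_left
    simp only
    have hs : i + j + k ≤ r := by omega
    have hqs := hq _ hs
    have hR : 0 < coeff (i • e1 + j • e2 + k • e3) (R ^ (i + j + k)) := by
      rw [pow_add, pow_add]
      exact pos_mul (pos_mul (pos_pow hR1 i) (pos_pow hR2 j)) (pos_pow hR3 k)
    rw [Polynomial.aeval_eq_sum_range, coeff_sum]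
    refine lt_of_lt_of_le ?_ (Finset.single_le_sum
      (f := fun s => coeff (i • e1 + j • e2 + k • e3) (q.coeff s • R ^ s))
      (fun _ _ => Nat.zero_le _)
      (Finset.mem_range.2 (Nat.lt_succ_of_le
        (Polynomial.le_natDegree_of_ne_zero (Nat.ne_of_gt hqs)))))
    rw [coeff_smul, smul_eq_mul]
    exact Nat.mul_pos hqs hR
  calc (r / 3 + 1) ^ 3
      = (range (r / 3 + 1) ×ˢ (range (r / 3 + 1) ×ˢ range (r / 3 + 1))).card := by
        rw [Finset.card_product, Finset.card_product, Finset.card_range]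
        ring
    _ = ((range (r / 3 + 1) ×ˢ (range (r / 3 + 1) ×ˢ range (r / 3 + 1))).image D).card :=
        (Finset.card_image_of_injective _ hinj).symm
    _ ≤ _ := Finset.card_le_card (Finset.image_subset_iff.2 hmem)

end Pool.Agent.Q98.TP.TaskCountProof
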