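import Pool.Agent.Q98.TP.Defs

set_option autoImplicit false

namespace Pool.Agent.Q98.TP.TaskScale

open MvPolynomial

theorem coeff_scale (f : MvPolynomial (Fin 3) ℤ) (u : Fin 3 → ℂ) (m : Fin 3 →₀ ℕ) :
    coeff m (aeval (fun i => C (u i) * X i : Fin 3 → MvPolynomial (Fin 3) ℂ) f) =
      ((coeff m f : ℤ) : ℂ) * ∏ i, u i ^ m i := by
  induction f using MvPolynomial.induction_on' with
  | monomial d a =>
    rw [aeval_monomial, Finsupp.prod_fintype _ _ (fun i => pow_zero _)]
    have e : (algebraMap ℤ (MvPolynomial (Fin 3) ℂ)) a *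
        ∏ i, ((C (u i) * X i : MvPolynomial (Fin 3) ℂ)) ^ d i =
        monomial d ((a : ℂ) * ∏ i, u i ^ d i) := by
      simp only [mul_pow, Finset.prod_mul_distrib]
      rw [monomial_eq, Finsupp.prod_fintype _ _ (fun i => pow_zero _)]
      simp only [map_mul, map_prod, map_pow]
      rw [← mul_assoc]
      congr 2
    rw [e, coeff_monomial, coeff_monomial]
    split_ifs with h
    · subst h; rfl
    · simp
  | add p q hp hq =>
    rw [map_add, coeff_add, hp, hq, coeff_add]
    push_cast
    ring

theorem main : Pool.Agent.Q98.TP.TaskScale := by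
  intro f g u c hu hc h
  congr 1
  ext m
  rw [mem_support_iff, mem_support_iff]
  have h1 := congrArg (coeff m) h
  rw [coeff_scale, coeff_C_mul, coeff_map] at h1
  have hp : (∏ i, u i ^ m i) ≠ 0 := Finset.prod_ne_zero_iff.2 fun i _ => pow_ne_zero _ (hu i)
  have e : (Nat.castRingHom ℂ) (coeff m g) = ((coeff m g : ℕ) : ℂ) := rfl
  rw [e] at h1
  constructor
  · intro hf hg
    rw [hg, Nat.cast_zero, mul_zero] at h1
    rcases mul_eq_zero.1 h1 with h2 | h2
    · exact hf (by exact_mod_cast h2)
    · exact hp h2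
  · intro hg hf
    rw [hf, Int.cast_zero, zero_mul] at h1
    rcases mul_eq_zero.1 h1.symm with h2 | h2
    · exact hc h2
    · exact hg (by exact_mod_cast h2)

end Pool.Agent.Q98.TP.TaskScale
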