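import Pool.Agent.Q98.TP.Words
import Pool.Agent.Q98.TP.TaskCount
import Pool.Agent.Q98.TP.TaskScale

/-!
# Many monomials
-/

set_option autoImplicit false

namespace Pool.Agent.Q98.TP

open MvPolynomial

/-- `xyz + y² + z²` over `ℂ` -/
noncomputable def Rc : MvPolynomial (Fin 3) ℂ := X 0 * X 1 * X 2 + X 1 ^ 2 + X 2 ^ 2

/-- the factors -/
noncomputable def uu : Fin 3 → ℂ := ![-1, Complex.I, Complex.I]

lemma CI : (C Complex.I : MvPolynomial (Fin 3) ℂ) * C Complex.I = -1 := by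
  rw [← C_mul, Complex.I_mul_I, C_neg, C_1]

theorem fp_count (r j : ℕ) (hj : j < 4) : ((r + 1) / 3 + 1) ^ 3 ≤ (fp r j).support.card := by
  set φ : MvPolynomial (Fin 3) ℤ →ₐ[ℤ] MvPolynomial (Fin 3) ℂ :=
    aeval (fun i => C (uu i) * X i : Fin 3 → MvPolynomial (Fin 3) ℂ) with hφ
  have h0 : φ (X 0) = -X 0 := by
    rw [hφ, aeval_X]
    show C (-1 : ℂ) * X 0 = _
    rw [C_neg, C_1]; ring
  have h1 : φ (X 1) = C Complex.I * X 1 := by rw [hφ, aeval_X]; rfl
  have h2 : φ (X 2) = C Complex.I * X 2 := by rw [hφ, aeval_X]; rfl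
  have hτ : φ tau = Rc := by
    rw [tau, map_sub, map_sub, map_mul, map_mul, map_pow, map_pow, h0, h1, h2, Rc]
    linear_combination (-X 0 * X 1 * X 2 - X 1 ^ 2 - X 2 ^ 2) * CI
  have hd : ∀ n, φ (dd tau n).1 = (dd Rc n).1 ∧ φ (dd tau n).2 = (dd Rc n).2 := by
    intro n
    have := dd_map φ.toRingHom tau n
    rw [← hτ]
    exact this
  set ψ : MvPolynomial (Fin 3) ℕ →+* MvPolynomial (Fin 3) ℂ := map (Nat.castRingHom ℂ) with hψ
  have hR : ψ R = Rc := by
    rw [hψ, R, map_add, map_add, map_mul, map_mul, map_pow, map_pow, map_X, map_X, map_X, Rc]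
  have he : ∀ n, ψ (dd R n).1 = (dd Rc n).1 ∧ ψ (dd R n).2 = (dd Rc n).2 := by
    intro n
    have := dd_map ψ R n
    rw [hR] at this
    exact this
  have hq : ∀ n, Polynomial.aeval R (dd (Polynomial.X : Polynomial ℕ) n).1 = (dd R n).1 ∧
      Polynomial.aeval R (dd (Polynomial.X : Polynomial ℕ) n).2 = (dd R n).2 := by
    intro n
    have := dd_map (Polynomial.aeval R : Polynomial ℕ →ₐ[ℕ] MvPolynomial (Fin 3) ℕ).toRingHom
      Polynomial.X n
    have hX : (Polynomial.aeval R : Polynomial ℕ →ₐ[ℕ] MvPolynomial (Fin 3) ℕ).toRingHom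
      Polynomial.X = R := Polynomial.aeval_X R
    rw [hX] at this
    exact this
  have hu : ∀ i, uu i ≠ 0 := by
    intro i
    fin_cases i <;> simp [uu]
  have hmon : ∀ i : Fin 3, ψ (monomial (Finsupp.single i 1) 1) = X i := by
    intro i
    rw [hψ, map_monomial, map_one]
    rfl
  have pos1 := fun s hs => (dd_pos (r + 1) s hs).1
  have pos2 := fun s hs => (dd_pos (r + 1) s hs).2
  interval_cases j
  · have h := TaskCountProof.main _ (r + 1) pos1 0 (dd R r).1
    rwa [← TaskScale.main (fp r 0) _ uu 1 hu one_ne_zero] at h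
    show φ ((dd tau (r + 1)).1 + (dd tau r).1) = C 1 * ψ _
    rw [map_add, (hd _).1, (hd _).1, map_add ψ, map_mul ψ, (hq _).1, (he _).1, (he _).1, C_1]
    rw [show ψ (monomial 0 1) = 1 from by rw [hψ, map_monomial, map_one]; rfl]
    ring
  · have h := TaskCountProof.main _ (r + 1) pos1 (Finsupp.single 0 1) 0
    rwa [← TaskScale.main (fp r 1) _ uu (-1) hu (by norm_num)] at h
    show φ (X 0 * (dd tau (r + 1)).1) = C (-1) * ψ _
    rw [map_mul, (hd _).1, h0, map_add ψ, map_mul ψ, (hq _).1, (he _).1, hmon, map_zero, C_neg,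
      C_1]
    ring
  · have h := TaskCountProof.main _ (r + 1) pos2 (Finsupp.single 2 1)
      (X 2 * (dd R r).2 + X 0 * X 1 * (dd R r).2)
    rwa [← TaskScale.main (fp r 2) _ uu Complex.I hu Complex.I_ne_zero] at h
    show φ (X 2 * ((dd tau (r + 1)).2 + (dd tau r).2) - X 0 * X 1 * (dd tau r).2)
      = C Complex.I * ψ _
    rw [map_sub, map_mul, map_mul, map_mul, map_add, (hd _).2, (hd _).2, h0, h1, h2, map_add ψ,
      map_mul ψ, (hq _).2, (he _).2, hmon, map_add ψ, map_mul ψ, map_mul ψ, map_mul ψ, (he _).2]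
    rw [show ψ (X 2) = X 2 from map_X _ _, show ψ (X 1) = X 1 from map_X _ _,
      show ψ (X 0) = X 0 from map_X _ _]
    ring
  · have h := TaskCountProof.main _ (r + 1) pos2 (Finsupp.single 1 1)
      (X 0 * X 2 * (dd R (r + 1)).2 + X 1 * (dd R r).2)
    rwa [← TaskScale.main (fp r 3) _ uu (-Complex.I) hu (neg_ne_zero.2 Complex.I_ne_zero)] at h
    show φ (X 0 * X 2 * (dd tau (r + 1)).2 - X 1 * ((dd tau (r + 1)).2 + (dd tau r).2))
      = C (-Complex.I) * ψ _
    rw [map_sub, map_mul, map_mul, map_mul, map_add, (hd _).2, (hd _).2, h0, h1, h2, map_add ψ,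
      map_mul ψ, (hq _).2, (he _).2, hmon, map_add ψ, map_mul ψ, map_mul ψ, map_mul ψ, (he _).2,
      (he _).2]
    rw [show ψ (X 2) = X 2 from map_X _ _, show ψ (X 1) = X 1 from map_X _ _,
      show ψ (X 0) = X 0 from map_X _ _, C_neg]
    ring

end Pool.Agent.Q98.TP
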