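import Mathlib

/-!
# Trace polynomials of words in two letters: definitions
-/

set_option autoImplicit false

namespace Pool.Agent.Q98.TP

open MvPolynomial

/-- `w(A, B)` -/
noncomputable def ev (A B : Matrix.SpecialLinearGroup (Fin 2) ℂ) :
    FreeGroup (Fin 2) →* Matrix.SpecialLinearGroup (Fin 2) ℂ := FreeGroup.lift ![A, B]

/-- `f` is the trace polynomial `f_w` of `w`:
`tr w(A, B) = f(tr A, tr B, tr AB)` for all `A, B` in `SL(2, ℂ)` -/
def IsTracePoly (w : FreeGroup (Fin 2)) (f : MvPolynomial (Fin 3) ℤ) : Prop :=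
  ∀ A B : Matrix.SpecialLinearGroup (Fin 2) ℂ,
    Matrix.trace (ev A B w : Matrix (Fin 2) (Fin 2) ℂ) =
      aeval ![Matrix.trace (A : Matrix (Fin 2) (Fin 2) ℂ),
        Matrix.trace (B : Matrix (Fin 2) (Fin 2) ℂ),
        Matrix.trace ((A : Matrix (Fin 2) (Fin 2) ℂ) * (B : Matrix (Fin 2) (Fin 2) ℂ))] f

/-- TaskExists (about 40 lines). By `FreeGroup.induction_on` or by lists prove: for every `w` there
are `p0 p1 p2 p3 : MvPolynomial (Fin 3) ℤ` with
`ev A B w = p0 • 1 + p1 • A + p2 • B + p3 • (A B)` (values at `x = tr A, y = tr B, z = tr AB`) for all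
`A, B`. Multiplying from the left by `A`: `A A = x A - 1`, `A (A B) = x (A B) - B`;
by `A⁻¹ = x - A`; by `B`: `B A = y A + x B + (z - x y) - A B`, `B B = y B - 1`,
`B (A B) = A + z B - x`; by `B⁻¹ = y - B`. Then take traces (`tr 1 = 2`). -/
def TaskExists : Prop := ∀ w : FreeGroup (Fin 2), ∃ f : MvPolynomial (Fin 3) ℤ, IsTracePoly w f

/-- TaskUnique (about 30 lines). For `x y z : ℂ` choose `s` with `s * s - z * s + 1 = 0` (so `s ≠ 0`),
`A = !![x, -1; 1, 0]`, `B = !![0, s; -s⁻¹, y]`: traces `x`, `y`, `tr AB = s + s⁻¹ = z`. Then use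
`MvPolynomial.funext` over `ℂ` and injectivity of `MvPolynomial.map (Int.castRingHom ℂ)`. -/
def TaskUnique : Prop := ∀ (w : FreeGroup (Fin 2)) (f g : MvPolynomial (Fin 3) ℤ),
  IsTracePoly w f → IsTracePoly w g → f = g

/-- `R = xyz + y² + z²` -/
noncomputable def R : MvPolynomial (Fin 3) ℕ := X 0 * X 1 * X 2 + X 1 ^ 2 + X 2 ^ 2

/-- TaskCount (about 60 lines). For `i, j, k ≤ r / 3` the coefficient of
`x^(i+m0) y^(i+2j+m1) z^(i+2k+m2)` in `monomial m 1 * q(R) + g` is positive, because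
`q(R) = ∑ q_s R^s` with `q_s > 0`, `s = i + j + k ≤ r`, and
`R^(i+j+k) = (xyz)^i (y²)^j (z²)^k + (something in ℕ[x,y,z])`; these exponents are different for
different `(i, j, k)`. -/
def TaskCount : Prop := ∀ (q : Polynomial ℕ) (r : ℕ), (∀ s ≤ r, 0 < q.coeff s) →
  ∀ (m : Fin 3 →₀ ℕ) (g : MvPolynomial (Fin 3) ℕ),
    (r / 3 + 1) ^ 3 ≤ (monomial m 1 * Polynomial.aeval R q + g).support.card

/-- TaskScale (about 40 lines): a substitution `x_i ↦ u_i x_i` with `u_i ≠ 0` does not change the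
number of monomials (coefficients are multiplied by `∏ u_i ^ d_i`); and coefficients in `ℕ` may be
read in `ℂ`. -/
def TaskScale : Prop := ∀ (f : MvPolynomial (Fin 3) ℤ) (g : MvPolynomial (Fin 3) ℕ)
  (u : Fin 3 → ℂ) (c : ℂ), (∀ i, u i ≠ 0) → c ≠ 0 →
  aeval (fun i => C (u i) * X i : Fin 3 → MvPolynomial (Fin 3) ℂ) f
    = C c * map (Nat.castRingHom ℂ) g → f.support.card = g.support.card

end Pool.Agent.Q98.TP
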