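import Pool.Agent.Q98.TP.Defs

set_option autoImplicit false

namespace Pool.Agent.Q98.TP.TaskExistsProof

open MvPolynomial Pool.Agent.Q98.TP

/-- the special linear group -/
abbrev SL := Matrix.SpecialLinearGroup (Fin 2) ℂ
/-- the matrices -/
abbrev Mt := Matrix (Fin 2) (Fin 2) ℂ

/-- the three traces -/
noncomputable def v (A B : SL) : Fin 3 → ℂ :=
  ![Matrix.trace (A : Mt), Matrix.trace (B : Mt), Matrix.trace ((A : Mt) * (B : Mt))]

/-- the combination of `1`, `A`, `B`, `A B` -/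
def comb (p0 p1 p2 p3 : ℂ) (A B : Mt) : Mt := p0 • (1 : Mt) + p1 • A + p2 • B + p3 • (A * B)

/-- `w` is a combination of `1`, `A`, `B`, `A B` -/
def P (w : FreeGroup (Fin 2)) : Prop := ∃ p0 p1 p2 p3 : MvPolynomial (Fin 3) ℤ, ∀ A B : SL,
  ((ev A B w : SL) : Mt) =
    comb (aeval (v A B) p0) (aeval (v A B) p1) (aeval (v A B) p2) (aeval (v A B) p3) (A : Mt) (B : Mt)

lemma mulA (p0 p1 p2 p3 : ℂ) (A B : Mt) (hA : A.det = 1) :
    A * comb p0 p1 p2 p3 A B = comb (-p1) (p0 + A.trace * p1) (-p3) (p2 + A.trace * p3) A B := by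
  rw [Matrix.det_fin_two] at hA
  unfold comb
  ext i j
  fin_cases i <;> fin_cases j <;>
    simp [Matrix.mul_apply, Fin.sum_univ_two, Matrix.trace_fin_two] <;> grind

lemma mulB (p0 p1 p2 p3 : ℂ) (A B : Mt) (hA : A.det = 1) (hB : B.det = 1) :
    B * comb p0 p1 p2 p3 A B = comb (p1 * ((A * B).trace - A.trace * B.trace) - p2 - A.trace * p3)
      (B.trace * p1 + p3) (p0 + A.trace * p1 + B.trace * p2 + (A * B).trace * p3) (-p1) A B := by
  rw [Matrix.det_fin_two] at hA hB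
  unfold comb
  ext i j
  fin_cases i <;> fin_cases j <;>
    simp [Matrix.mul_apply, Fin.sum_univ_two, Matrix.trace_fin_two] <;> grind

lemma inv_eq (A : SL) : ((A⁻¹ : SL) : Mt) = (A : Mt).trace • (1 : Mt) - (A : Mt) := by
  rw [Matrix.SpecialLinearGroup.coe_inv, Matrix.adjugate_fin_two]
  ext i j
  fin_cases i <;> fin_cases j <;> simp [Matrix.trace_fin_two]

lemma v0 (A B : SL) : v A B 0 = (A : Mt).trace := rfl
lemma v1 (A B : SL) : v A B 1 = (B : Mt).trace := rfl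
lemma v2 (A B : SL) : v A B 2 = ((A : Mt) * (B : Mt)).trace := rfl

lemma stepA (w : FreeGroup (Fin 2)) (h : P w) : P (FreeGroup.of 0 * w) := by
  obtain ⟨p0, p1, p2, p3, h⟩ := h
  refine ⟨-p1, p0 + X 0 * p1, -p3, p2 + X 0 * p3, fun A B => ?_⟩
  rw [map_mul, Matrix.SpecialLinearGroup.coe_mul, h A B]
  have : ev A B (FreeGroup.of 0) = A := by simp [ev]
  rw [this, mulA _ _ _ _ _ _ A.2]
  simp [v0]

lemma stepB (w : FreeGroup (Fin 2)) (h : P w) : P (FreeGroup.of 1 * w) := by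
  obtain ⟨p0, p1, p2, p3, h⟩ := h
  refine ⟨p1 * (X 2 - X 0 * X 1) - p2 - X 0 * p3, X 1 * p1 + p3, p0 + X 0 * p1 + X 1 * p2 + X 2 * p3, -p1,
    fun A B => ?_⟩
  rw [map_mul, Matrix.SpecialLinearGroup.coe_mul, h A B]
  have : ev A B (FreeGroup.of 1) = B := by simp [ev]
  rw [this, mulB _ _ _ _ _ _ A.2 B.2]
  simp [v0, v1, v2]

lemma smul_comb (t p0 p1 p2 p3 : ℂ) (A B : Mt) :
    t • comb p0 p1 p2 p3 A B = comb (t * p0) (t * p1) (t * p2) (t * p3) A B := by
  unfold comb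
  simp only [smul_add, smul_smul]

lemma sub_comb (p0 p1 p2 p3 q0 q1 q2 q3 : ℂ) (A B : Mt) :
    comb p0 p1 p2 p3 A B - comb q0 q1 q2 q3 A B = comb (p0 - q0) (p1 - q1) (p2 - q2) (p3 - q3) A B := by
  unfold comb
  simp only [sub_smul]
  abel

lemma stepA' (w : FreeGroup (Fin 2)) (h : P w) : P ((FreeGroup.of 0)⁻¹ * w) := by
  obtain ⟨p0, p1, p2, p3, h⟩ := h
  refine ⟨X 0 * p0 - -p1, X 0 * p1 - (p0 + X 0 * p1), X 0 * p2 - -p3, X 0 * p3 - (p2 + X 0 * p3), fun A B => ?_⟩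
  rw [map_mul, Matrix.SpecialLinearGroup.coe_mul, h A B, map_inv]
  have : ev A B (FreeGroup.of 0) = A := by simp [ev]
  rw [this, inv_eq, sub_mul, Matrix.smul_mul, one_mul, mulA _ _ _ _ _ _ A.2, smul_comb, sub_comb]
  simp [v0]

lemma stepB' (w : FreeGroup (Fin 2)) (h : P w) : P ((FreeGroup.of 1)⁻¹ * w) := by
  obtain ⟨p0, p1, p2, p3, h⟩ := h
  refine ⟨X 1 * p0 - (p1 * (X 2 - X 0 * X 1) - p2 - X 0 * p3), X 1 * p1 - (X 1 * p1 + p3),
    X 1 * p2 - (p0 + X 0 * p1 + X 1 * p2 + X 2 * p3), X 1 * p3 - -p1, fun A B => ?_⟩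
  rw [map_mul, Matrix.SpecialLinearGroup.coe_mul, h A B, map_inv]
  have : ev A B (FreeGroup.of 1) = B := by simp [ev]
  rw [this, inv_eq, sub_mul, Matrix.smul_mul, one_mul, mulB _ _ _ _ _ _ A.2 B.2, smul_comb, sub_comb]
  simp [v0, v1, v2]

lemma all (w : FreeGroup (Fin 2)) : ∀ w', P w' → P (w * w') := by
  induction w using FreeGroup.induction_on with
  | C1 => intro w' h; rwa [one_mul]
  | of i =>
    intro w' h
    fin_cases i
    · exact stepA w' h
    · exact stepB w' h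
  | inv_of i _ =>
    intro w' h
    fin_cases i
    · exact stepA' w' h
    · exact stepB' w' h
  | mul x y hx hy => intro w' h; rw [mul_assoc]; exact hx _ (hy _ h)

theorem main : TaskExists := by
  intro w
  have h1 : P 1 := ⟨1, 0, 0, 0, fun A B => by simp [comb]⟩
  obtain ⟨p0, p1, p2, p3, h⟩ := all w 1 h1
  rw [mul_one] at h
  refine ⟨2 * p0 + X 0 * p1 + X 1 * p2 + X 2 * p3, fun A B => ?_⟩
  rw [h A B]
  unfold comb
  rw [Matrix.trace_add, Matrix.trace_add, Matrix.trace_add, Matrix.trace_smul, Matrix.trace_smul,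
    Matrix.trace_smul, Matrix.trace_smul, Matrix.trace_one]
  simp [v]
  ring

end Pool.Agent.Q98.TP.TaskExistsProof
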