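import Pool.Agent.Q98.TP.Defs

set_option autoImplicit false

open MvPolynomial

namespace Pool.Agent.Q98.TP.TaskUniqueProof

theorem key (w : FreeGroup (Fin 2)) (f g : MvPolynomial (Fin 3) ℤ)
    (hf : IsTracePoly w f) (hg : IsTracePoly w g) (x y z : ℂ) :
    aeval ![x, y, z] f = aeval ![x, y, z] g := by
  obtain ⟨t, ht⟩ := IsAlgClosed.exists_pow_nat_eq (z ^ 2 - 4) (n := 2) (by norm_num)
  let s : ℂ := (z + t) / 2
  have hs : s * s - z * s + 1 = 0 := by
    simp only [s]
    linear_combination (1 / 4 : ℂ) * ht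
  have hs0 : s ≠ 0 := by
    intro h
    rw [h] at hs
    simp at hs
  let A : Matrix.SpecialLinearGroup (Fin 2) ℂ := ⟨!![x, -1; 1, 0], by
    rw [Matrix.det_fin_two_of]; ring⟩
  let B : Matrix.SpecialLinearGroup (Fin 2) ℂ := ⟨!![0, s; -s⁻¹, y], by
    rw [Matrix.det_fin_two_of]; field_simp; ring⟩
  have hA : Matrix.trace (A : Matrix (Fin 2) (Fin 2) ℂ) = x := by
    change Matrix.trace !![x, -1; 1, 0] = x
    rw [Matrix.trace_fin_two_of]; ring
  have hB : Matrix.trace (B : Matrix (Fin 2) (Fin 2) ℂ) = y := by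
    change Matrix.trace !![0, s; -s⁻¹, y] = y
    rw [Matrix.trace_fin_two_of]; ring
  have hAB : Matrix.trace ((A : Matrix (Fin 2) (Fin 2) ℂ) * (B : Matrix (Fin 2) (Fin 2) ℂ)) = z := by
    change Matrix.trace (!![x, -1; 1, 0] * !![0, s; -s⁻¹, y]) = z
    rw [Matrix.mul_fin_two, Matrix.trace_fin_two_of]
    have h1 : s⁻¹ + s = z := by
      field_simp
      linear_combination hs
    linear_combination h1
  have h := (hf A B).symm.trans (hg A B)
  rw [hA, hB, hAB] at h
  exact h

theorem main : Pool.Agent.Q98.TP.TaskUnique := by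
  intro w f g hf hg
  apply MvPolynomial.map_injective (Int.castRingHom ℂ) Int.cast_injective
  apply MvPolynomial.funext
  intro v
  have hv : v = ![v 0, v 1, v 2] := by
    ext i
    fin_cases i <;> rfl
  have h := key w f g hf hg (v 0) (v 1) (v 2)
  rw [← hv] at h
  rw [MvPolynomial.eval_map, MvPolynomial.eval_map]
  exact h

end Pool.Agent.Q98.TP.TaskUniqueProof
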