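import Pool.Agent.Q98.TP.Defs

/-!
# Trace identities
-/

set_option autoImplicit false

namespace Pool.Agent.Q98.TP

open Matrix

/-- the pairs `(d_n, s_n)` -/
def dd {T : Type} [CommSemiring T] (τ : T) : ℕ → T × T
  | 0 => (1, 1)
  | n + 1 => (τ * (dd τ n).2 + (dd τ n).1, (dd τ n).2 + (τ * (dd τ n).2 + (dd τ n).1))

lemma dd_map {T T' : Type} [CommSemiring T] [CommSemiring T'] (φ : T →+* T') (τ : T) (n : ℕ) :
    φ (dd τ n).1 = (dd (φ τ) n).1 ∧ φ (dd τ n).2 = (dd (φ τ) n).2 := by
  induction n with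
  | zero => exact ⟨map_one φ, map_one φ⟩
  | succ n ih =>
    constructor
    · show φ (τ * (dd τ n).2 + (dd τ n).1) = φ τ * (dd (φ τ) n).2 + (dd (φ τ) n).1
      rw [map_add, map_mul, ih.1, ih.2]
    · show φ ((dd τ n).2 + (τ * (dd τ n).2 + (dd τ n).1)) =
        (dd (φ τ) n).2 + (φ τ * (dd (φ τ) n).2 + (dd (φ τ) n).1)
      rw [map_add, map_add, map_mul, ih.1, ih.2]

lemma dd_succ_one {T : Type} [CommSemiring T] (τ : T) (n : ℕ) :
    (dd τ (n + 1)).1 = τ * (dd τ n).2 + (dd τ n).1 := rfl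

lemma dd_succ_two {T : Type} [CommSemiring T] (τ : T) (n : ℕ) :
    (dd τ (n + 1)).2 = (dd τ n).2 + (τ * (dd τ n).2 + (dd τ n).1) := rfl

section
variable {T : Type} [CommRing T]

lemma dd_rel (τ : T) (n : ℕ) : (dd τ (n + 1)).1 = (dd τ (n + 1)).2 - (dd τ n).2 := by
  rw [dd_succ_one, dd_succ_two]; ring

lemma rec_two (τ : T) (n : ℕ) :
    (dd τ (n + 2)).2 = (τ + 2) * (dd τ (n + 1)).2 - (dd τ n).2 := by
  have h := dd_rel τ n
  rw [dd_succ_two τ (n + 1), h]; ring

lemma rec_one (τ : T) (n : ℕ) :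
    (dd τ (n + 2)).1 = (τ + 2) * (dd τ (n + 1)).1 - (dd τ n).1 := by
  rw [dd_succ_one τ (n + 1), dd_succ_two τ n, dd_succ_one τ n]; ring

end

/-- positivity of the coefficients -/
lemma dd_pos (n : ℕ) : ∀ k ≤ n, 0 < (dd (Polynomial.X : Polynomial ℕ) n).1.coeff k ∧
    0 < (dd (Polynomial.X : Polynomial ℕ) n).2.coeff k := by
  induction n with
  | zero =>
    intro k hk
    have : k = 0 := by omega
    subst this
    exact ⟨by simp [dd], by simp [dd]⟩
  | succ n ih =>
    intro k hk
    have h1 : 0 < (dd (Polynomial.X : Polynomial ℕ) (n + 1)).1.coeff k := by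
      rw [dd_succ_one, Polynomial.coeff_add]
      rcases k with _ | k
      · have := (ih 0 (by omega)).1
        omega
      · have := (ih k (by omega)).2
        rw [Polynomial.coeff_X_mul]
        omega
    refine ⟨h1, ?_⟩
    rw [dd_succ_two, Polynomial.coeff_add, ← dd_succ_one]
    omega

lemma CH (M : Matrix (Fin 2) (Fin 2) ℂ) (h : M.det = 1) : M * M = M.trace • M - 1 := by
  rw [Matrix.det_fin_two] at h
  ext i j
  fin_cases i <;> fin_cases j <;>
    simp [Matrix.mul_apply, Fin.sum_univ_two, Matrix.trace_fin_two] <;>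
    first | ring1 | linear_combination (-1) * h

lemma tr_rec (M N : Matrix (Fin 2) (Fin 2) ℂ) (h : M.det = 1) (r : ℕ) :
    (M ^ (r + 2) * N).trace = M.trace * (M ^ (r + 1) * N).trace - (M ^ r * N).trace := by
  have h1 : M ^ (r + 2) * N = M.trace • (M ^ (r + 1) * N) - M ^ r * N := by
    rw [pow_add, pow_two, CH M h, mul_sub, mul_one, sub_mul, mul_smul_comm, smul_mul_assoc,
      ← pow_succ]
  rw [h1, Matrix.trace_sub, Matrix.trace_smul, smul_eq_mul]

section
variable {a b b' : Matrix (Fin 2) (Fin 2) ℂ}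

lemma tr_W (ha : a.det = 1) (hb : b.det = 1) (hb' : b' = !![b 1 1, -b 0 1; -b 1 0, b 0 0]) :
    (a * b * a * b').trace = a.trace * b.trace * (a * b).trace - (a * b).trace ^ 2
    - b.trace ^ 2 + 2 := by
  rw [Matrix.det_fin_two] at ha hb
  subst hb'
  simp only [Matrix.trace_fin_two, Matrix.mul_apply, Fin.sum_univ_two, Matrix.of_apply,
    Matrix.cons_val', Matrix.cons_val_zero, Matrix.cons_val_one, Matrix.cons_val_fin_one]
  linear_combination (-(b 0 0 + b 1 1) ^ 2 + 2 * (b 0 0 * b 1 1 - b 0 1 * b 1 0)) * ha + 2 * hb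

lemma tr_ab' (hb' : b' = !![b 1 1, -b 0 1; -b 1 0, b 0 0]) :
    (a * b').trace = a.trace * b.trace - (a * b).trace := by
  subst hb'
  simp only [Matrix.trace_fin_two, Matrix.mul_apply, Fin.sum_univ_two, Matrix.of_apply,
    Matrix.cons_val', Matrix.cons_val_zero, Matrix.cons_val_one, Matrix.cons_val_fin_one]
  ring

lemma tr_Wa (ha : a.det = 1) (h1b : b' * b = 1) :
    (a * b * a * b' * a).trace = a.trace * ((a * b * a * b').trace - 1) := by
  rw [Matrix.trace_mul_comm]
  have h1 : a * (a * b * a * b') = (a * a) * (b * a * b') := by simp only [mul_assoc]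
  have h2 : a * (b * a * b') = a * b * a * b' := by simp only [mul_assoc]
  have h3 : (b * a * b').trace = a.trace := by
    rw [Matrix.trace_mul_comm, ← mul_assoc, h1b, one_mul]
  rw [h1, CH a ha, sub_mul, one_mul, smul_mul_assoc, Matrix.trace_sub, Matrix.trace_smul,
    smul_eq_mul, h2, h3]
  ring

lemma tr_Wab (ha : a.det = 1) (hb : b.det = 1) (hb' : b' = !![b 1 1, -b 0 1; -b 1 0, b 0 0]) :
    (a * b * a * b' * (a * b)).trace =
    (a * b).trace * (a * b * a * b').trace - (a.trace * b.trace - (a * b).trace) := by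
  rw [Matrix.trace_mul_comm]
  have hdet : (a * b).det = 1 := by rw [Matrix.det_mul, ha, hb, mul_one]
  have h1 : a * b * (a * b * a * b') = (a * b) * (a * b) * (a * b') := by simp only [mul_assoc]
  have h2 : a * b * (a * b') = a * b * a * b' := by simp only [mul_assoc]
  rw [h1, CH (a * b) hdet, sub_mul, one_mul, smul_mul_assoc, Matrix.trace_sub, Matrix.trace_smul,
    smul_eq_mul, h2, tr_ab' (a := a) hb']

lemma tr_aba (ha : a.det = 1) :
    (a * b * a).trace = a.trace * (a * b).trace - b.trace := by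
  rw [Matrix.trace_mul_comm, ← mul_assoc, CH a ha, sub_mul, one_mul, smul_mul_assoc,
    Matrix.trace_sub, Matrix.trace_smul, smul_eq_mul]

lemma tr_Waba (ha : a.det = 1) (hb : b.det = 1) (hdb : b'.det = 1) (h1b : b' * b = 1) :
    (a * b * a * b' * (a * b * a)).trace =
    (a * b * a * b').trace * (a.trace * (a * b).trace - b.trace) - b.trace := by
  have hWb : a * b * a * b' * b = a * b * a := by
    rw [mul_assoc (a * b * a), h1b, mul_one]
  have hdet : (a * b * a * b').det = 1 := by
    rw [Matrix.det_mul, Matrix.det_mul, Matrix.det_mul, ha, hb, hdb]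
    norm_num
  have h1 : a * b * a * b' * (a * b * a) = (a * b * a * b') * (a * b * a * b') * b := by
    rw [mul_assoc (a * b * a * b') (a * b * a * b') b, hWb]
  rw [h1, CH _ hdet, sub_mul, one_mul, smul_mul_assoc, Matrix.trace_sub, Matrix.trace_smul,
    smul_eq_mul, hWb, tr_aba ha]

/-- the traces of the four families; `τ = tr W - 2` -/
theorem families (ha : a.det = 1) (hb : b.det = 1) (hb' : b' = !![b 1 1, -b 0 1; -b 1 0, b 0 0])
    (hdb : b'.det = 1) (h1b : b' * b = 1) (τ : ℂ)
    (hτ : τ = a.trace * b.trace * (a * b).trace - (a * b).trace ^ 2 - b.trace ^ 2) (r : ℕ) :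
    ((a * b * a * b') ^ (r + 1)).trace = (dd τ (r + 1)).1 + (dd τ r).1 ∧
    ((a * b * a * b') ^ (r + 1) * a).trace = a.trace * (dd τ (r + 1)).1 ∧
    ((a * b * a * b') ^ (r + 1) * (a * b)).trace =
      (a * b).trace * ((dd τ (r + 1)).2 + (dd τ r).2) - a.trace * b.trace * (dd τ r).2 ∧
    ((a * b * a * b') ^ (r + 1) * (a * b * a)).trace =
      a.trace * (a * b).trace * (dd τ (r + 1)).2
        - b.trace * ((dd τ (r + 1)).2 + (dd τ r).2) := by
  have hW : (a * b * a * b').trace = τ + 2 := by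
    rw [tr_W ha hb hb', hτ]
  have hdet : (a * b * a * b').det = 1 := by
    rw [Matrix.det_mul, Matrix.det_mul, Matrix.det_mul, ha, hb, hdb]
    norm_num
  -- two-step induction
  have key : ∀ (N : Matrix (Fin 2) (Fin 2) ℂ) (v : ℕ → ℂ),
      (∀ n, v (n + 2) = (τ + 2) * v (n + 1) - v n) →
      ((a * b * a * b') * N).trace = v 0 →
      (τ + 2) * ((a * b * a * b') * N).trace - N.trace = v 1 →
      ∀ r, ((a * b * a * b') ^ (r + 1) * N).trace = v r := by
    intro N v hv h0 h1 r
    have h2 : ∀ r, ((a * b * a * b') ^ (r + 1) * N).trace = v r ∧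
        ((a * b * a * b') ^ (r + 2) * N).trace = v (r + 1) := by
      intro r
      induction r with
      | zero =>
        refine ⟨by rw [zero_add, pow_one]; exact h0, ?_⟩
        rw [tr_rec _ N hdet 0, hW, pow_zero, one_mul, zero_add, pow_one]
        exact h1
      | succ r ih =>
        refine ⟨ih.2, ?_⟩
        rw [tr_rec _ N hdet (r + 1), hW, ih.2, ih.1, hv]
    exact (h2 r).1
  refine ⟨?_, ?_, ?_, ?_⟩
  · have := key 1 (fun n => (dd τ (n + 1)).1 + (dd τ n).1) (fun n => by
      show (dd τ (n + 2 + 1)).1 + (dd τ (n + 2)).1 = _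
      rw [rec_one τ (n + 1), rec_one τ n]; ring) (by
      rw [mul_one, hW]; simp only [dd]; ring) (by
      rw [mul_one, hW, Matrix.trace_one, Fintype.card_fin]; simp only [dd]; push_cast; ring) r
    rw [mul_one] at this
    exact this
  · exact key a (fun n => a.trace * (dd τ (n + 1)).1) (fun n => by
      show a.trace * (dd τ (n + 2 + 1)).1 = _
      rw [rec_one τ (n + 1)]; ring) (by
      rw [tr_Wa ha h1b, hW]; simp only [dd]; ring) (by
      rw [tr_Wa ha h1b, hW]; simp only [dd]; ring) r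
  · exact key (a * b) (fun n => (a * b).trace * ((dd τ (n + 1)).2 + (dd τ n).2)
        - a.trace * b.trace * (dd τ n).2) (fun n => by
      show (a * b).trace * ((dd τ (n + 2 + 1)).2 + (dd τ (n + 2)).2)
        - a.trace * b.trace * (dd τ (n + 2)).2 = _
      rw [rec_two τ (n + 1), rec_two τ n]; ring) (by
      rw [tr_Wab ha hb hb', hW]; simp only [dd]; ring) (by
      rw [tr_Wab ha hb hb', hW]; simp only [dd]; ring) r
  · exact key (a * b * a) (fun n => a.trace * (a * b).trace * (dd τ (n + 1)).2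
        - b.trace * ((dd τ (n + 1)).2 + (dd τ n).2)) (fun n => by
      show a.trace * (a * b).trace * (dd τ (n + 2 + 1)).2
        - b.trace * ((dd τ (n + 2 + 1)).2 + (dd τ (n + 2)).2) = _
      rw [rec_two τ (n + 1), rec_two τ n]; ring) (by
      rw [tr_Waba ha hb hdb h1b, hW]; simp only [dd]; ring) (by
      rw [tr_Waba ha hb hdb h1b, hW, tr_aba ha]; simp only [dd]; ring) r

end

end Pool.Agent.Q98.TP
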