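import Pool.Agent.Q98.TP.TaskExists
import Pool.Agent.Q98.TP.TaskUnique

/-!
# The degree bound
-/

set_option autoImplicit false

namespace Pool.Agent.Q98.TP

open MvPolynomial TaskExistsProof

/-- all degrees are at most `n` -/
def DB (n : ℕ) (p : MvPolynomial (Fin 3) ℤ) : Prop := ∀ i, degreeOf i p ≤ n

lemma DB.mono {n m : ℕ} {p : MvPolynomial (Fin 3) ℤ} (h : DB n p) (hnm : n ≤ m) : DB m p :=
  fun i => (h i).trans hnm

lemma DB.neg {n : ℕ} {p : MvPolynomial (Fin 3) ℤ} (h : DB n p) : DB n (-p) := by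
  intro i
  rw [degreeOf_neg]
  exact h i

lemma DB.add {n : ℕ} {p q : MvPolynomial (Fin 3) ℤ} (h : DB n p) (h' : DB n q) : DB n (p + q) :=
  fun i => (degreeOf_add_le i p q).trans (max_le (h i) (h' i))

lemma DB.sub {n : ℕ} {p q : MvPolynomial (Fin 3) ℤ} (h : DB n p) (h' : DB n q) :
    DB n (p - q) := by
  rw [sub_eq_add_neg]
  exact h.add h'.neg

lemma degX (i j : Fin 3) : degreeOf i (X j : MvPolynomial (Fin 3) ℤ) ≤ if i = j then 1 else 0 := by
  rw [degreeOf_X]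

lemma DB.mulX {n : ℕ} {p : MvPolynomial (Fin 3) ℤ} (h : DB n p) (j : Fin 3) :
    DB (n + 1) (X j * p) := by
  intro i
  refine (degreeOf_mul_le i _ _).trans ?_
  have h1 := degX i j
  have h2 := h i
  split_ifs at h1 <;> omega

lemma DB.mulq {n : ℕ} {p : MvPolynomial (Fin 3) ℤ} (h : DB n p) :
    DB (n + 1) (p * (X 2 - X 0 * X 1)) := by
  intro i
  refine (degreeOf_mul_le i _ _).trans ?_
  have h2 := h i
  have h3 : degreeOf i (X 2 - X 0 * X 1 : MvPolynomial (Fin 3) ℤ) ≤ 1 := by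
    rw [sub_eq_add_neg]
    refine (degreeOf_add_le i _ _).trans (max_le ?_ ?_)
    · have := degX i 2
      split_ifs at this <;> omega
    · rw [degreeOf_neg]
      refine (degreeOf_mul_le i _ _).trans ?_
      have h4 := degX i 0
      have h5 := degX i 1
      by_cases h0 : i = 0
      · subst h0
        rw [if_pos rfl] at h4
        rw [if_neg (by decide)] at h5
        omega
      · rw [if_neg h0] at h4
        split_ifs at h5 <;> omega
  omega

/-- `w` is a combination with degrees at most `n` -/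
def PD (n : ℕ) (w : FreeGroup (Fin 2)) : Prop := ∃ p0 p1 p2 p3 : MvPolynomial (Fin 3) ℤ,
  (DB n p0 ∧ DB n p1 ∧ DB n p2 ∧ DB n p3) ∧ ∀ A B : SL,
  ((ev A B w : SL) : Mt) =
    comb (aeval (v A B) p0) (aeval (v A B) p1) (aeval (v A B) p2) (aeval (v A B) p3) (A : Mt) (B : Mt)

lemma pdA {n : ℕ} (w : FreeGroup (Fin 2)) (h : PD n w) : PD (n + 1) (FreeGroup.of 0 * w) := by
  obtain ⟨p0, p1, p2, p3, ⟨d0, d1, d2, d3⟩, h⟩ := h
  have e0 := d0.mono (Nat.le_succ n)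
  have e1 := d1.mono (Nat.le_succ n)
  have e2 := d2.mono (Nat.le_succ n)
  have e3 := d3.mono (Nat.le_succ n)
  refine ⟨-p1, p0 + X 0 * p1, -p3, p2 + X 0 * p3,
    ⟨e1.neg, e0.add (d1.mulX 0), e3.neg, e2.add (d3.mulX 0)⟩, fun A B => ?_⟩
  rw [map_mul, Matrix.SpecialLinearGroup.coe_mul, h A B]
  have : ev A B (FreeGroup.of 0) = A := by simp [ev]
  rw [this, mulA _ _ _ _ _ _ A.2]
  simp [v0]

lemma pdB {n : ℕ} (w : FreeGroup (Fin 2)) (h : PD n w) : PD (n + 1) (FreeGroup.of 1 * w) := by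
  obtain ⟨p0, p1, p2, p3, ⟨d0, d1, d2, d3⟩, h⟩ := h
  have e0 := d0.mono (Nat.le_succ n)
  have e1 := d1.mono (Nat.le_succ n)
  have e2 := d2.mono (Nat.le_succ n)
  have e3 := d3.mono (Nat.le_succ n)
  refine ⟨p1 * (X 2 - X 0 * X 1) - p2 - X 0 * p3, X 1 * p1 + p3, p0 + X 0 * p1 + X 1 * p2 + X 2 * p3, -p1,
    ⟨(d1.mulq.sub e2).sub (d3.mulX 0), (d1.mulX 1).add e3,
      ((e0.add (d1.mulX 0)).add (d2.mulX 1)).add (d3.mulX 2), e1.neg⟩, fun A B => ?_⟩
  rw [map_mul, Matrix.SpecialLinearGroup.coe_mul, h A B]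
  have : ev A B (FreeGroup.of 1) = B := by simp [ev]
  rw [this, mulB _ _ _ _ _ _ A.2 B.2]
  simp [v0, v1, v2]

lemma pdA' {n : ℕ} (w : FreeGroup (Fin 2)) (h : PD n w) :
    PD (n + 1) ((FreeGroup.of 0)⁻¹ * w) := by
  obtain ⟨p0, p1, p2, p3, ⟨d0, d1, d2, d3⟩, h⟩ := h
  have e0 := d0.mono (Nat.le_succ n)
  have e1 := d1.mono (Nat.le_succ n)
  have e2 := d2.mono (Nat.le_succ n)
  have e3 := d3.mono (Nat.le_succ n)
  refine ⟨X 0 * p0 - -p1, X 0 * p1 - (p0 + X 0 * p1), X 0 * p2 - -p3, X 0 * p3 - (p2 + X 0 * p3),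
    ⟨(d0.mulX 0).sub e1.neg, (d1.mulX 0).sub (e0.add (d1.mulX 0)), (d2.mulX 0).sub e3.neg,
      (d3.mulX 0).sub (e2.add (d3.mulX 0))⟩, fun A B => ?_⟩
  rw [map_mul, Matrix.SpecialLinearGroup.coe_mul, h A B, map_inv]
  have : ev A B (FreeGroup.of 0) = A := by simp [ev]
  rw [this, inv_eq, sub_mul, Matrix.smul_mul, one_mul, mulA _ _ _ _ _ _ A.2, smul_comb, sub_comb]
  simp [v0]

lemma pdB' {n : ℕ} (w : FreeGroup (Fin 2)) (h : PD n w) :
    PD (n + 1) ((FreeGroup.of 1)⁻¹ * w) := by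
  obtain ⟨p0, p1, p2, p3, ⟨d0, d1, d2, d3⟩, h⟩ := h
  have e0 := d0.mono (Nat.le_succ n)
  have e1 := d1.mono (Nat.le_succ n)
  have e2 := d2.mono (Nat.le_succ n)
  have e3 := d3.mono (Nat.le_succ n)
  refine ⟨X 1 * p0 - (p1 * (X 2 - X 0 * X 1) - p2 - X 0 * p3), X 1 * p1 - (X 1 * p1 + p3),
    X 1 * p2 - (p0 + X 0 * p1 + X 1 * p2 + X 2 * p3), X 1 * p3 - -p1,
    ⟨(d0.mulX 1).sub ((d1.mulq.sub e2).sub (d3.mulX 0)), (d1.mulX 1).sub ((d1.mulX 1).add e3),
      (d2.mulX 1).sub (((e0.add (d1.mulX 0)).add (d2.mulX 1)).add (d3.mulX 2)),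
      (d3.mulX 1).sub e1.neg⟩, fun A B => ?_⟩
  rw [map_mul, Matrix.SpecialLinearGroup.coe_mul, h A B, map_inv]
  have : ev A B (FreeGroup.of 1) = B := by simp [ev]
  rw [this, inv_eq, sub_mul, Matrix.smul_mul, one_mul, mulB _ _ _ _ _ _ A.2 B.2, smul_comb, sub_comb]
  simp [v0, v1, v2]

lemma pd_list (L : List (Fin 2 × Bool)) : PD L.length (FreeGroup.mk L) := by
  induction L with
  | nil =>
    refine ⟨1, 0, 0, 0, ⟨fun i => ?_, fun i => ?_, fun i => ?_, fun i => ?_⟩, fun A B => ?_⟩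
    · simp
    · simp
    · simp
    · simp
    · rw [← FreeGroup.one_eq_mk]
      simp [comb]
  | cons x L ih =>
    obtain ⟨i, s⟩ := x
    have h1 : FreeGroup.mk ((i, s) :: L) = FreeGroup.mk [(i, s)] * FreeGroup.mk L := by
      rw [FreeGroup.mul_mk]; rfl
    rw [h1, List.length_cons]
    fin_cases i <;> cases s
    · have : (FreeGroup.mk [((0 : Fin 2), false)]) = (FreeGroup.of 0)⁻¹ := rfl
      show PD (L.length + 1) (FreeGroup.mk [((0 : Fin 2), false)] * _)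
      rw [this]; exact pdA' _ ih
    · exact pdA _ ih
    · have : (FreeGroup.mk [((1 : Fin 2), false)]) = (FreeGroup.of 1)⁻¹ := rfl
      show PD (L.length + 1) (FreeGroup.mk [((1 : Fin 2), false)] * _)
      rw [this]; exact pdB' _ ih
    · exact pdB _ ih

lemma card_le {n : ℕ} {f : MvPolynomial (Fin 3) ℤ} (h : DB n f) :
    f.support.card ≤ (n + 1) ^ 3 := by
  classical
  have h1 : f.support.card ≤ (Finset.univ : Finset (Fin (n + 1) × Fin (n + 1) × Fin (n + 1))).card := by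
    refine Finset.card_le_card_of_injOn (fun d => (Fin.ofNat (n + 1) (d 0), Fin.ofNat (n + 1) (d 1),
      Fin.ofNat (n + 1) (d 2))) (fun _ _ => Finset.mem_univ _) ?_
    intro d hd e he hde
    have hb : ∀ x ∈ f.support, ∀ i, x i < n + 1 := fun x hx i =>
      Nat.lt_succ_of_le ((monomial_le_degreeOf i hx).trans (h i))
    simp only [Prod.mk.injEq, Fin.ext_iff, Fin.val_ofNat] at hde
    obtain ⟨g0, g1, g2⟩ := hde
    rw [Nat.mod_eq_of_lt (hb d hd 0), Nat.mod_eq_of_lt (hb e he 0)] at g0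
    rw [Nat.mod_eq_of_lt (hb d hd 1), Nat.mod_eq_of_lt (hb e he 1)] at g1
    rw [Nat.mod_eq_of_lt (hb d hd 2), Nat.mod_eq_of_lt (hb e he 2)] at g2
    ext i
    fin_cases i
    · exact g0
    · exact g1
    · exact g2
  refine h1.trans (le_of_eq ?_)
  rw [Finset.card_univ, Fintype.card_prod, Fintype.card_prod, Fintype.card_fin]
  ring

/-- **the degree bound** -/
theorem upper {w : FreeGroup (Fin 2)} {f : MvPolynomial (Fin 3) ℤ} (hf : IsTracePoly w f) :
    f.support.card ≤ (w.toWord.length + 2) ^ 3 := by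
  obtain ⟨p0, p1, p2, p3, ⟨d0, d1, d2, d3⟩, h⟩ := pd_list w.toWord
  rw [FreeGroup.mk_toWord] at h
  have hg : IsTracePoly w (p0 + p0 + X 0 * p1 + X 1 * p2 + X 2 * p3) := by
    intro A B
    rw [h A B]
    unfold comb
    rw [Matrix.trace_add, Matrix.trace_add, Matrix.trace_add, Matrix.trace_smul, Matrix.trace_smul,
      Matrix.trace_smul, Matrix.trace_smul, Matrix.trace_one]
    simp [v]
    ring
  rw [TaskUniqueProof.main w f _ hf hg]
  have e0 := d0.mono (Nat.le_succ w.toWord.length)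
  exact card_le ((((e0.add e0).add (d1.mulX 0)).add (d2.mulX 1)).add (d3.mulX 2))

end Pool.Agent.Q98.TP
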