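import Pool.Agent.Q98.TP.Trace

/-!
# The words and their trace polynomials
-/

set_option autoImplicit false

namespace Pool.Agent.Q98.TP

open MvPolynomial

/-- the block `a b a b⁻¹` -/
def blk : List (Fin 2 × Bool) := [(0, true), (1, true), (0, true), (1, false)]

/-- `(a b a b⁻¹)^r t` -/
def wd (r : ℕ) (t : List (Fin 2 × Bool)) : List (Fin 2 × Bool) :=
  match r with
  | 0 => t
  | r + 1 => blk ++ wd r t

lemma wd_length (r : ℕ) (t : List (Fin 2 × Bool)) : (wd r t).length = 4 * r + t.length := by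
  induction r with
  | zero => simp [wd]
  | succ r ih => rw [wd, List.length_append, ih]; simp [blk]; ring

/-- the tails -/
def tl : ℕ → List (Fin 2 × Bool)
  | 0 => []
  | 1 => [(0, true)]
  | 2 => [(0, true), (1, true)]
  | _ => [(0, true), (1, true), (0, true)]

lemma wd_head (r : ℕ) {t : List (Fin 2 × Bool)} (ht : t.head? = some (0, true) ∨ t = []) :
    (wd r t).head? = some (0, true) ∨ (wd r t) = [] := by
  cases r with
  | zero => exact ht
  | succ r => left; rfl

lemma wd_reduced (r : ℕ) {t : List (Fin 2 × Bool)} (ht : t.head? = some (0, true) ∨ t = [])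
    (hr : FreeGroup.IsReduced t) : FreeGroup.IsReduced (wd r t) := by
  induction r with
  | zero => exact hr
  | succ r ih =>
    have h1 := wd_head r ht
    show List.IsChain _ (blk ++ wd r t)
    rw [List.isChain_append]
    refine ⟨by simp [blk], ih, ?_⟩
    intro x hx y hy
    rcases h1 with h1 | h1
    · rw [h1] at hy
      simp [blk] at hx hy
      subst hx hy
      simp
    · rw [h1] at hy
      simp at hy

lemma wd_last (r : ℕ) (t : List (Fin 2 × Bool)) (ht : t ≠ []) :
    (wd r t).getLast? = t.getLast? := by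
  induction r with
  | zero => rfl
  | succ r ih =>
    have h1 : wd r t ≠ [] := by
      intro h
      have := wd_length r t
      rw [h] at this
      simp only [List.length_nil] at this
      exact ht (List.length_eq_zero_iff.1 (by omega))
    rw [wd, List.getLast?_append_of_ne_nil _ h1, ih]

lemma wd_last_nil (r : ℕ) : (wd (r + 1) []).getLast? = some (1, false) := by
  induction r with
  | zero => rfl
  | succ r ih =>
    have h1 : wd (r + 1) [] ≠ [] := by simp [wd, blk]
    rw [wd, List.getLast?_append_of_ne_nil _ h1, ih]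

lemma wd_cyc (r j : ℕ) (hj : j < 4) : FreeGroup.IsCyclicallyReduced (wd (r + 1) (tl j)) := by
  have hhead : (tl j).head? = some (0, true) ∨ tl j = [] := by
    interval_cases j <;> simp [tl]
  have hred : FreeGroup.IsReduced (tl j) := by
    interval_cases j <;> simp [tl, FreeGroup.IsReduced]
  refine ⟨wd_reduced _ hhead hred, ?_⟩
  intro x hx y hy
  have hy2 : y = (0, true) := by
    have : (wd (r + 1) (tl j)).head? = some (0, true) := rfl
    rw [this] at hy
    simpa using hy.symm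
  subst hy2
  interval_cases j
  · rw [tl, wd_last_nil] at hx
    simp at hx
    subst hx
    simp
  · rw [wd_last _ _ (by simp [tl])] at hx
    simp [tl] at hx
    subst hx
    simp
  · rw [wd_last _ _ (by simp [tl])] at hx
    simp [tl] at hx
    subst hx
    simp
  · rw [wd_last _ _ (by simp [tl])] at hx
    simp [tl] at hx
    subst hx
    simp

lemma wd_mk (r : ℕ) (t : List (Fin 2 × Bool)) :
    FreeGroup.mk (wd r t) = (FreeGroup.mk blk) ^ r * FreeGroup.mk t := by
  induction r with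
  | zero => simp [wd]
  | succ r ih => rw [wd, ← FreeGroup.mul_mk, ih, pow_succ', mul_assoc]

/-- `τ = xyz - y² - z²` -/
noncomputable def tau : MvPolynomial (Fin 3) ℤ := X 0 * X 1 * X 2 - X 1 ^ 2 - X 2 ^ 2

/-- the trace polynomials -/
noncomputable def fp (r : ℕ) : ℕ → MvPolynomial (Fin 3) ℤ
  | 0 => (dd tau (r + 1)).1 + (dd tau r).1
  | 1 => X 0 * (dd tau (r + 1)).1
  | 2 => X 2 * ((dd tau (r + 1)).2 + (dd tau r).2) - X 0 * X 1 * (dd tau r).2
  | _ => X 0 * X 2 * (dd tau (r + 1)).2 - X 1 * ((dd tau (r + 1)).2 + (dd tau r).2)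

theorem fp_spec (r j : ℕ) (hj : j < 4) :
    IsTracePoly (FreeGroup.mk (wd (r + 1) (tl j))) (fp r j) := by
  intro A B
  set x := Matrix.trace (A : Matrix (Fin 2) (Fin 2) ℂ) with hx
  set y := Matrix.trace (B : Matrix (Fin 2) (Fin 2) ℂ) with hy
  set z := Matrix.trace ((A : Matrix (Fin 2) (Fin 2) ℂ) * (B : Matrix (Fin 2) (Fin 2) ℂ)) with hz
  set φ : MvPolynomial (Fin 3) ℤ →ₐ[ℤ] ℂ := aeval ![x, y, z] with hφ
  have h0 : φ (X 0) = x := by rw [hφ, aeval_X]; rfl
  have h1 : φ (X 1) = y := by rw [hφ, aeval_X]; rfl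
  have h2 : φ (X 2) = z := by rw [hφ, aeval_X]; rfl
  have hτ : φ tau = x * y * z - z ^ 2 - y ^ 2 := by
    rw [tau, map_sub, map_sub, map_mul, map_mul, map_pow, map_pow, h0, h1, h2]; ring
  have hd : ∀ n, φ (dd tau n).1 = (dd (φ tau) n).1 ∧ φ (dd tau n).2 = (dd (φ tau) n).2 :=
    fun n => dd_map φ.toRingHom tau n
  have hev : ∀ L : List (Fin 2 × Bool), ev A B (FreeGroup.mk (wd (r + 1) L)) =
      (A * B * A * B⁻¹) ^ (r + 1) * ev A B (FreeGroup.mk L) := by
    intro L
    rw [wd_mk, map_mul, map_pow]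
    congr 2
    simp [ev, blk, FreeGroup.lift_mk, mul_assoc]
  have hfam := families (a := A.1) (b := B.1) (b' := (B⁻¹).1) A.2 B.2
    (by
      rw [show (B⁻¹).1 = Matrix.adjugate B.1 from Matrix.SpecialLinearGroup.coe_inv B,
        Matrix.adjugate_fin_two]) (B⁻¹).2
    (by
      have := congrArg (fun M : Matrix.SpecialLinearGroup (Fin 2) ℂ => M.1) (inv_mul_cancel B)
      exact this) (φ tau) hτ r
  obtain ⟨g0, g1, g2, g3⟩ := hfam
  interval_cases j
  · have e : ((ev A B (FreeGroup.mk (wd (r + 1) (tl 0))) :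
        Matrix.SpecialLinearGroup (Fin 2) ℂ) : Matrix (Fin 2) (Fin 2) ℂ)
        = (A.1 * B.1 * A.1 * (B⁻¹).1) ^ (r + 1) := by
      rw [hev]
      have : ev A B (FreeGroup.mk (tl 0)) = 1 := by simp [ev, tl, FreeGroup.lift_mk]
      rw [this, mul_one]
      rfl
    rw [e, g0]
    show _ = φ ((dd tau (r + 1)).1 + (dd tau r).1)
    rw [map_add, (hd _).1, (hd _).1]
  · have e : ((ev A B (FreeGroup.mk (wd (r + 1) (tl 1))) :
        Matrix.SpecialLinearGroup (Fin 2) ℂ) : Matrix (Fin 2) (Fin 2) ℂ)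
        = (A.1 * B.1 * A.1 * (B⁻¹).1) ^ (r + 1) * A.1 := by
      rw [hev]
      have : ev A B (FreeGroup.mk (tl 1)) = A := by simp [ev, tl, FreeGroup.lift_mk]
      rw [this]
      rfl
    rw [e, g1]
    show _ = φ (X 0 * (dd tau (r + 1)).1)
    rw [map_mul, (hd _).1, h0]
  · have e : ((ev A B (FreeGroup.mk (wd (r + 1) (tl 2))) :
        Matrix.SpecialLinearGroup (Fin 2) ℂ) : Matrix (Fin 2) (Fin 2) ℂ)
        = (A.1 * B.1 * A.1 * (B⁻¹).1) ^ (r + 1) * (A.1 * B.1) := by
      rw [hev]
      have : ev A B (FreeGroup.mk (tl 2)) = A * B := by simp [ev, tl, FreeGroup.lift_mk]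
      rw [this]
      rfl
    rw [e, g2]
    show _ = φ (X 2 * ((dd tau (r + 1)).2 + (dd tau r).2) - X 0 * X 1 * (dd tau r).2)
    rw [map_sub, map_mul, map_mul, map_mul, map_add, (hd _).2, (hd _).2, h0, h1, h2]
  · have e : ((ev A B (FreeGroup.mk (wd (r + 1) (tl 3))) :
        Matrix.SpecialLinearGroup (Fin 2) ℂ) : Matrix (Fin 2) (Fin 2) ℂ)
        = (A.1 * B.1 * A.1 * (B⁻¹).1) ^ (r + 1) * (A.1 * B.1 * A.1) := by
      rw [hev]
      have : ev A B (FreeGroup.mk (tl 3)) = A * B * A := by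
        simp [ev, tl, FreeGroup.lift_mk, mul_assoc]
      rw [this]
      rfl
    rw [e, g3]
    show _ = φ (X 0 * X 2 * (dd tau (r + 1)).2 - X 1 * ((dd tau (r + 1)).2 + (dd tau r).2))
    rw [map_sub, map_mul, map_mul, map_mul, map_add, (hd _).2, (hd _).2, h0, h1, h2]

end Pool.Agent.Q98.TP
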